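import Pool.Agent.MVO.StmtsG

/-!
# MVO, row RED: balanced reduction
-/

set_option autoImplicit false

namespace Pool.Agent.MVO.H88

open Pool.Agent.Helper14_MV Pool.Agent.Helper2_MV

/-- The letters with different numbers of occurrences. -/
def bad (u v : List ℕ) : Finset ℕ := (u ++ v).toFinset.filter fun d => u.count d ≠ v.count d

lemma mem_bad {u v : List ℕ} {d : ℕ} : d ∈ bad u v ↔ u.count d ≠ v.count d := by
  unfold bad
  rw [Finset.mem_filter, List.mem_toFinset, List.mem_append]
  refine ⟨fun h => h.2, fun h => ⟨?_, h⟩⟩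
  by_contra hc
  push Not at hc
  exact h (by rw [List.count_eq_zero_of_not_mem hc.1, List.count_eq_zero_of_not_mem hc.2])

lemma count_flt {u : List ℕ} {c d : ℕ} (h : d ≠ c) :
    (u.filter (fun x => x ≠ c)).count d = u.count d := by
  rw [List.count_filter]
  simpa using h

lemma count_flt' {u : List ℕ} {c : ℕ} : (u.filter (fun x => x ≠ c)).count c = 0 := by
  apply List.count_eq_zero_of_not_mem
  intro h
  have := (List.mem_filter.mp h).2
  simp at this

lemma bal_star (u : List ℕ) (c : ℕ) :
    Bal u (u.filter (fun d => d ≠ c) ++ List.replicate (u.count c) c) := by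
  intro d
  rw [List.count_append]
  by_cases h : d = c
  · subst h
    rw [count_flt', List.count_replicate_self, zero_add]
  · rw [count_flt h, List.count_replicate, if_neg (by simpa using fun h' => h h'.symm), add_zero]

lemma ofList_replicate (n c : ℕ) :
    (FreeMonoid.ofList (List.replicate n c) : Word) = FreeMonoid.of c ^ n := by
  induction n with
  | zero => rfl
  | succ n ih =>
    rw [List.replicate_succ, pow_succ', ← ih]
    rfl

theorem red (hCom : ComStmt) (hChb : ChbStmt) : RedStmt := by
  intro β hWU hBal ρ σ τ hρ hσ hτ hρτ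
  have hβκ : β ≤ FIC.sup ρ σ := FIC.le_trans' hρ (FIC.le_sup_left ρ σ)
  have hA : ∀ u v : List ℕ, Bal u v → RR τ u v → RR (FIC.sup ρ σ) u v →
      RR (FIC.sup ρ (FIC.inf σ τ)) u v := by
    intro u v hb h1 h2
    by_cases hc1 : RR ρ [0, 1] [1, 0]
    · exact FIC.le_sup_left _ _ _ _ (hCom ρ u v hc1 hb)
    · by_cases hc2 : RR σ [0, 1] [1, 0]
      · exact FIC.le_sup_right _ _ _ _ ⟨hCom σ u v hc2 hb, h1⟩
      · exact hBal ρ σ τ hρ hσ hτ hρτ hc1 hc2 u v h1 (hChb β ρ σ hWU hρ hσ u v hb h2)
  have hB : ∀ (n : ℕ) (u v : List ℕ), (bad u v).card = n → RR τ u v → RR (FIC.sup ρ σ) u v →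
      RR (FIC.sup ρ (FIC.inf σ τ)) u v := by
    intro n
    induction n using Nat.strong_induction_on with
    | _ n ih =>
      intro u v hn h1 h2
      by_cases hb : Bal u v
      · exact hA u v hb h1 h2
      · unfold Bal at hb
        push Not at hb
        obtain ⟨c, hc⟩ := hb
        have hu : RR (FIC.sup ρ (FIC.inf σ τ)) u
            (u.filter (fun d => d ≠ c) ++ List.replicate (u.count c) c) :=
          hA _ _ (bal_star u c) (hWU τ hτ u v c h1 hc) (hWU _ hβκ u v c h2 hc)
        have hv : RR (FIC.sup ρ (FIC.inf σ τ)) v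
            (v.filter (fun d => d ≠ c) ++ List.replicate (v.count c) c) :=
          hA _ _ (bal_star v c) (hWU τ hτ v u c h1.symm hc.symm)
            (hWU _ hβκ v u c h2.symm hc.symm)
        have hm : RR (FIC.sup ρ (FIC.inf σ τ)) (u.filter (fun d => d ≠ c))
            (v.filter (fun d => d ≠ c)) := by
          refine ih _ ?_ _ _ rfl (h1.filter _) (h2.filter _)
          rw [← hn]
          apply Finset.card_lt_card
          rw [Finset.ssubset_iff_of_subset]
          · refine ⟨c, mem_bad.mpr hc, fun h => mem_bad.mp h ?_⟩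
            rw [count_flt', count_flt']
          · intro d hd
            rw [mem_bad] at hd ⊢
            by_cases hdc : d = c
            · subst hdc
              exact hc
            · rwa [count_flt hdc, count_flt hdc] at hd
        have hp : RR (FIC.sup ρ (FIC.inf σ τ)) (List.replicate (u.count c) c)
            (List.replicate (v.count c) c) := by
          unfold RR
          rw [ofList_replicate, ofList_replicate, Pool.Agent.Helper4_MV.rel_pow_of]
          exact Pool.Agent.Helper4_MV.one_distrib (i := c) (u := FreeMonoid.ofList u)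
            (v := FreeMonoid.ofList v) h2 (FIC.le_sup_right _ _ _ _ h1)
        exact (FIC.sup ρ (FIC.inf σ τ)).trans hu
          ((FIC.sup ρ (FIC.inf σ τ)).trans (hm.append hp) hv.symm)
  intro u v h1 h2
  exact hB _ u.toList v.toList rfl h2 h1

end Pool.Agent.MVO.H88
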